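import Pool.Agent.Helper57.QZ.Stmts2

/-!
# Mean square of `FX` (row XS of the second sheet QZ)
-/

set_option autoImplicit false

namespace Pool.Agent.Helper31.Q2

open MeasureTheory Set Filter Topology Pool.Agent.Helper57.QZ

theorem xs_int (hB : ST_XB) {X : ℕ} (hX : 1 ≤ X) {s : ℂ} (hs : 0 < s.re) :
    Integrable (fun u : ℝ => (gX X (Real.exp u) : ℂ) * Complex.exp (-(s * u))) := by
  obtain ⟨hB, hm, h0⟩ := hB X hX
  have hd : Integrable (fun u : ℝ => (Ici (Real.log 2)).indicator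
      (fun u : ℝ => (10 * X : ℝ) * Real.exp (-s.re * u)) u) := by
    rw [integrable_indicator_iff measurableSet_Ici, integrableOn_Ici_iff_integrableOn_Ioi]
    exact (exp_neg_integrableOn_Ioi (Real.log 2) hs).const_mul (10 * X : ℝ)
  refine hd.mono' ?_ ?_
  · refine AEStronglyMeasurable.mul ?_ ?_
    · exact (Complex.measurable_ofReal.comp hm).aestronglyMeasurable
    · exact Continuous.aestronglyMeasurable (by fun_prop)
  · refine Filter.Eventually.of_forall fun u => ?_
    by_cases hu : Real.log 2 ≤ u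
    · rw [indicator_of_mem (mem_Ici.2 hu), norm_mul, Complex.norm_exp, Complex.norm_real,
        Real.norm_eq_abs]
      have e : (-(s * (u : ℂ))).re = -s.re * u := by simp
      rw [e]
      exact mul_le_mul_of_nonneg_right (hB _ (Real.exp_pos u)) (Real.exp_pos _).le
    · have h2 : Real.exp u < 2 := by
        rw [← Real.lt_log_iff_exp_lt (by norm_num)]
        exact not_le.1 hu
      rw [indicator_of_notMem (by simpa using hu), h0 _ (Real.exp_pos u) h2]
      simp

theorem xs_key (hM : ST_XM) (hB : ST_XB) {X : ℕ} (hX : 1 ≤ X) {s : ℂ} (hs : 0 < s.re)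
    (h1 : s ≠ 1) (h : ℝ) :
    ∫ u : ℝ, ((gX X (Real.exp (u + h)) : ℂ) - gX X (Real.exp u)) * Complex.exp (-(s * u)) =
      (Complex.exp (s * h) - 1) * (FX X s * (s - 1) / (s * (s + 1))) := by
  have hi := xs_int hB hX hs
  have e : (fun u : ℝ => ((gX X (Real.exp (u + h)) : ℂ) - gX X (Real.exp u)) *
      Complex.exp (-(s * u))) =
      fun u : ℝ => Complex.exp (s * h) * ((fun v : ℝ => (gX X (Real.exp v) : ℂ) *
        Complex.exp (-(s * v))) (u + h)) - (gX X (Real.exp u) : ℂ) * Complex.exp (-(s * u)) := by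
    funext u
    have e1 : Complex.exp (-(s * u)) =
        Complex.exp (s * h) * Complex.exp (-(s * ((u + h : ℝ) : ℂ))) := by
      rw [← Complex.exp_add]
      congr 1
      push_cast
      ring
    simp only
    rw [sub_mul]
    congr 1
    rw [e1]
    ring
  rw [e, integral_sub ((hi.comp_add_right h).const_mul _) hi, integral_const_mul,
    integral_add_right_eq_self (fun v : ℝ => (gX X (Real.exp v) : ℂ) *
        Complex.exp (-(s * v))) h, hM X s hX hs h1]
  ring

theorem xs_sin {x : ℝ} (h1 : 1 / 2 ≤ x) (h2 : x ≤ 3) : 0.08 ≤ Real.sin x := by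
  have hp1 := Real.pi_gt_d4
  have hp2 := Real.pi_lt_d2
  have hp : 0.63 ≤ 2 / Real.pi := by
    rw [le_div_iff₀ Real.pi_pos]
    linarith
  rcases le_total x (Real.pi / 2) with h | h
  · have := Real.mul_le_sin (by linarith) h
    nlinarith
  · rw [← Real.sin_pi_sub]
    have := Real.mul_le_sin (x := Real.pi - x) (by linarith) (by linarith)
    nlinarith

/-- lower bound for the factor -/
theorem xs_fac {T σ t : ℝ} (hT : 4 ≤ T) (hσ : 0 < σ) (hσ2 : σ ≤ 5) (ht1 : T / 2 ≤ t)
    (ht2 : t ≤ 3 * T) :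
    1 ≤ 125 * T * ‖(Complex.exp (pt σ t * ((1 / T : ℝ) : ℂ)) - 1) *
      ((pt σ t - 1) / (pt σ t * (pt σ t + 1)))‖ := by
  have hT0 : 0 < T := by linarith
  have ht0 : 0 < t := by linarith
  have hre : (pt σ t).re = σ := by simp [pt]
  have him : (pt σ t).im = t := by simp [pt]
  have h1 : (0.08 : ℝ) ≤ ‖Complex.exp (pt σ t * ((1 / T : ℝ) : ℂ)) - 1‖ := by
    have hz : (pt σ t * ((1 / T : ℝ) : ℂ)).re = σ * (1 / T) := by
      rw [Complex.re_mul_ofReal, hre]
    have hz' : (pt σ t * ((1 / T : ℝ) : ℂ)).im = t * (1 / T) := by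
      rw [Complex.im_mul_ofReal, him]
    have e1 : (Complex.exp (pt σ t * ((1 / T : ℝ) : ℂ)) - 1).im =
        Real.exp (σ * (1 / T)) * Real.sin (t * (1 / T)) := by
      rw [Complex.sub_im, Complex.exp_im, hz, hz']
      simp
    have h2 : |(Complex.exp (pt σ t * ((1 / T : ℝ) : ℂ)) - 1).im| ≤
        ‖Complex.exp (pt σ t * ((1 / T : ℝ) : ℂ)) - 1‖ := Complex.abs_im_le_norm _
    have hx1 : (1 / 2 : ℝ) ≤ t * (1 / T) := by
      rw [mul_one_div, le_div_iff₀ hT0]
      linarith
    have hx2 : t * (1 / T) ≤ 3 := by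
      rw [mul_one_div, div_le_iff₀ hT0]
      linarith
    have h3 := xs_sin hx1 hx2
    have h4 : (1 : ℝ) ≤ Real.exp (σ * (1 / T)) := Real.one_le_exp (by positivity)
    rw [e1, abs_of_nonneg (by nlinarith)] at h2
    nlinarith
  have h2 : t ≤ ‖pt σ t - 1‖ := by
    have := Complex.abs_im_le_norm (pt σ t - 1)
    rw [Complex.sub_im, him, Complex.one_im, sub_zero, abs_of_pos ht0] at this
    exact this
  have h3 : ‖pt σ t + 1‖ ≤ 2 * ‖pt σ t - 1‖ := by
    have e : pt σ t + 1 = (pt σ t - 1) + 2 := by ring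
    rw [e]
    have := norm_add_le (pt σ t - 1) (2 : ℂ)
    have e2 : ‖(2 : ℂ)‖ = 2 := by simp
    rw [e2] at this
    linarith
  have h4 : ‖pt σ t‖ ≤ 5 * T := by
    have := Complex.norm_le_abs_re_add_abs_im (pt σ t)
    rw [hre, him, abs_of_pos hσ, abs_of_pos ht0] at this
    linarith
  have h5 : 0 < ‖pt σ t + 1‖ := by
    have := Complex.abs_im_le_norm (pt σ t + 1)
    rw [Complex.add_im, him, Complex.one_im, add_zero, abs_of_pos ht0] at this
    linarith
  have h6 : 0 < ‖pt σ t‖ := by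
    have := Complex.abs_im_le_norm (pt σ t)
    rw [him, abs_of_pos ht0] at this
    linarith
  have h7 : 1 / (10 * T) ≤ ‖pt σ t - 1‖ / (‖pt σ t‖ * ‖pt σ t + 1‖) := by
    rw [div_le_div_iff₀ (by positivity) (by positivity)]
    nlinarith [mul_nonneg (sub_nonneg.2 h4) h5.le, norm_nonneg (pt σ t - 1)]
  rw [norm_mul, norm_div, norm_mul]
  have h8 : (0.08 : ℝ) * (1 / (10 * T)) ≤ ‖Complex.exp (pt σ t * ((1 / T : ℝ) : ℂ)) - 1‖ *
      (‖pt σ t - 1‖ / (‖pt σ t‖ * ‖pt σ t + 1‖)) :=
    mul_le_mul h1 h7 (by positivity) (norm_nonneg _)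
  have h9 : 125 * T * (0.08 * (1 / (10 * T))) = 1 := by
    field_simp
    norm_num
  nlinarith [mul_le_mul_of_nonneg_left h8 (by positivity : (0:ℝ) ≤ 125 * T)]

theorem xs_rpow {T : ℝ} (hT : 0 < T) (a : ℝ) : T ^ 2 * (1 / T) ^ (1 + a) = T ^ (1 - a) := by
  rw [one_div, Real.inv_rpow hT.le, ← Real.rpow_neg hT.le, ← Real.rpow_natCast T 2,
    ← Real.rpow_add hT]
  congr 1
  push_cast
  ring

theorem xs_of (h1 : ST_PL) (h2 : ST_XM) (h3 : ST_XD) (h4 : ST_XB) : ST_XS := by
  intro ε hε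
  obtain ⟨C, hC⟩ := h3 ε hε
  refine ⟨1562500 * C, fun X hX T hT σ hσ => ?_⟩
  have hT0 : 0 < T := by linarith
  have hσ0 : 0 < σ := by linarith [hσ.1, hε.1]
  have hh : (1 / T : ℝ) ∈ Ioc (0:ℝ) 1 := by
    refine ⟨by positivity, ?_⟩
    rw [div_le_iff₀ hT0]
    linarith
  obtain ⟨hi1, hi2, hi3⟩ := hC X hX (1 / T) hh σ hσ
  set f : ℝ → ℂ := fun u => (((gX X (Real.exp (u + 1 / T)) - gX X (Real.exp u)) *
    Real.exp (-(σ * u)) : ℝ) : ℂ) with hf
  have hfi : Integrable f := hi1.ofReal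
  have hfn : ∀ u, ‖f u‖ ^ 2 = ((gX X (Real.exp (u + 1 / T)) - gX X (Real.exp u)) *
      Real.exp (-(σ * u))) ^ 2 := by
    intro u
    rw [hf]
    simp only
    rw [Complex.norm_real, Real.norm_eq_abs, sq_abs]
  have hf2 : Integrable (fun u => ‖f u‖ ^ 2) := by
    simp only [hfn]
    exact hi2
  have hP := h1 f hfi hf2 (3 * T) (by linarith)
  simp only [hfn] at hP
  set G : ℝ → ℝ := fun t => ‖∫ u, f u * Complex.exp (-((t : ℂ) * u * Complex.I))‖ ^ 2 with hG
  have hGc : Continuous G := by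
    have : Continuous (fun t : ℝ => ∫ u, f u * Complex.exp (-((t : ℂ) * u * Complex.I))) := by
      refine continuous_of_dominated (bound := fun u => ‖f u‖) ?_ ?_ hfi.norm ?_
      · intro t
        exact hfi.aestronglyMeasurable.mul (Continuous.aestronglyMeasurable (by fun_prop))
      · intro t
        refine Filter.Eventually.of_forall fun u => ?_
        rw [norm_mul, Complex.norm_exp]
        have e : (-((t : ℂ) * u * Complex.I)).re = 0 := by simp
        rw [e, Real.exp_zero, mul_one]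
      · refine Filter.Eventually.of_forall fun u => ?_
        fun_prop
    exact (this.norm).pow 2
  have hGi : ∀ a b : ℝ, IntervalIntegrable G volume a b := fun a b =>
    hGc.intervalIntegrable a b
  have hG0 : ∀ t, 0 ≤ G t := fun t => by positivity
  have hmono : ∫ t in (T / 2)..(3 * T), G t ≤ ∫ t in (-(3 * T))..(3 * T), G t :=
    intervalIntegral.integral_mono_interval (by linarith) (by linarith) le_rfl
      (Filter.Eventually.of_forall hG0) (hGi _ _)
  have hbd : 15625 * T ^ 2 * ∫ t in (T / 2)..(3 * T), G t ≤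
      1562500 * C * (T * (X : ℝ) ^ (-ε) + T ^ (1 - ε) + (X : ℝ) ^ 2 * T ^ (1 - 2 * ε)) := by
    have h5 : ∫ t in (T / 2)..(3 * T), G t ≤ 100 * (C * ((1 / T) * (X : ℝ) ^ (-ε) +
        (1 / T) ^ (1 + ε) + (X : ℝ) ^ 2 * (1 / T) ^ (1 + 2 * ε))) :=
      hmono.trans (hP.trans (mul_le_mul_of_nonneg_left hi3 (by norm_num)))
    have h6 := mul_le_mul_of_nonneg_left h5 (by positivity : (0:ℝ) ≤ 15625 * T ^ 2)
    refine h6.trans (le_of_eq ?_)
    rw [← xs_rpow hT0 ε, ← xs_rpow hT0 (2 * ε)]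
    have e1 : T ^ 2 * ((1 / T) * (X : ℝ) ^ (-ε)) = T * (X : ℝ) ^ (-ε) := by
      field_simp
    linear_combination (1562500 * C) * e1
  have hI0 : 0 ≤ ∫ t in (T / 2)..(3 * T), G t :=
    intervalIntegral.integral_nonneg (by linarith) fun t _ => hG0 t
  by_cases hint : IntervalIntegrable (fun t => ‖FX X (pt σ t)‖ ^ 2) volume (T / 2) (3 * T)
  · refine le_trans ?_ hbd
    rw [← intervalIntegral.integral_const_mul]
    refine intervalIntegral.integral_mono_on (by linarith) hint ((hGi _ _).const_mul _)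
      fun t ht => ?_
    have ht0 : 0 < t := by linarith [ht.1]
    have hre : 0 < (pt σ t).re := by simpa [pt] using hσ0
    have hne : pt σ t ≠ 1 := by
      intro h
      have := congrArg Complex.im h
      simp [pt] at this
      exact ht0.ne' this
    have hk := xs_key h2 h4 hX hre hne (1 / T)
    have e1 : ∫ u, f u * Complex.exp (-((t : ℂ) * u * Complex.I)) =
        (Complex.exp (pt σ t * ((1 / T : ℝ) : ℂ)) - 1) *
          (FX X (pt σ t) * (pt σ t - 1) / (pt σ t * (pt σ t + 1))) := by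
      rw [← hk]
      refine integral_congr_ae (Filter.Eventually.of_forall fun u => ?_)
      simp only [hf]
      push_cast
      rw [mul_assoc, ← Complex.exp_add]
      congr 2
      simp only [pt]
      ring
    have hfac := xs_fac hT hσ0 hσ.2 ht.1 ht.2
    have e2 : ‖∫ u, f u * Complex.exp (-((t : ℂ) * u * Complex.I))‖ =
        ‖(Complex.exp (pt σ t * ((1 / T : ℝ) : ℂ)) - 1) *
          ((pt σ t - 1) / (pt σ t * (pt σ t + 1)))‖ * ‖FX X (pt σ t)‖ := by
      rw [e1, ← norm_mul]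
      congr 1
      ring
    have h7 : ‖FX X (pt σ t)‖ ≤
        125 * T * ‖∫ u, f u * Complex.exp (-((t : ℂ) * u * Complex.I))‖ := by
      rw [e2]
      have := mul_le_mul_of_nonneg_right hfac (norm_nonneg (FX X (pt σ t)))
      linarith
    calc ‖FX X (pt σ t)‖ ^ 2 ≤
        (125 * T * ‖∫ u, f u * Complex.exp (-((t : ℂ) * u * Complex.I))‖) ^ 2 :=
          pow_le_pow_left₀ (norm_nonneg _) h7 2
      _ = 15625 * T ^ 2 * G t := by
          rw [hG]
          ring
  · rw [intervalIntegral.integral_undef hint]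
    exact le_trans (by positivity) hbd

end Pool.Agent.Helper31.Q2
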